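import Pool.Agent.Lib.MP_5eff62_lc.Final

/-!
# Randomness of projections of points of effective dimension greater than one

If `x` is a point of the plane with effective dimension greater than one and the direction `θ` is
Martin-Loef random relative to `x`, then the projection of `x` in the direction `θ` is
Martin-Loef random relative to `θ` (hence also Martin-Loef random).
-/

set_option autoImplicit false

namespace Pool.Agent.Results.MP_5eff62_lc.ProjectionRandom

open Pool.Agent.MP_5eff62_lc

/-- Let `U` be an optimal prefix-free machine, `x` a point of the plane with effective dimension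
greater than one, and `θ ∈ [0, 1)` Martin-Loef random relative to the oracle of `x`. Then
`cos(2πθ) x₁ + sin(2πθ) x₂` is Martin-Loef random relative to the oracle of `θ`. -/
theorem result (U : List Bool →. ℕ) (hU : IsOptimal U) (x : ℝ × ℝ) (hx : 1 < effDim U x)
    (θ : ℝ) (hθ : θ ∈ Set.Ico (0 : ℝ) 1) (hr : MLRandom (oraclePt x) θ) :
    MLRandom (oracle θ) (proj θ x) :=
  Pool.Agent.MP_5eff62_lc.main U hU x hx θ hθ hr

end Pool.Agent.Results.MP_5eff62_lc.ProjectionRandom
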